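import Pool.Agent.LibGPR.FinalR

/-!
# Gamma-points of `U(α)` for regular uncountable `α`

Let `α` be a regular uncountable cardinal. Then every uniform ultrafilter on `α` is a `γ`-point of
`U(α)` for every `γ` for which there is an almost disjoint family of size `γ` on `α`.

Outline. Let `p` be a uniform ultrafilter on `κ = α`.

1. For `b : κ → κ` let `Cl b` be the set of the points closed under `b` and
`fl b x = max (Cl b ∩ [0, x])`. Either for some `b` the image of `p` under `fl b` contains all closed
unbounded sets, or `p` is `(ω, κ)`-regular.
2. Scale: `g δ` (`δ < λ`), `λ = b(κ)` regular, increasing modulo bounded sets, unbounded modulo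
nonstationary sets (Cummings-Shelah).
3. In the regular case two applications of the pressing down lemma for finite sets give the classes.
4. In the first case the class of `C ⊆ κ` consists of the sets `B` of size `κ` which for some level
`δ < λ` are almost contained in all `Cl (g β)`, `β < δ`, are almost disjoint from `Cl (g δ)`, and such
that the colour of the escape level of the points of `B` (the least level `l` of an enumeration of a
cofinal set of levels below `δ` by `κ` with `x < g l z`, where `z = fl (g δ) x`) lies in `C` and tends
to `κ`. If `λ ≥ κ⁺⁺` the levels are coloured by club guessing ladders; if `λ = κ⁺` by the first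
stationary set, of a partition of the levels of cofinality `κ`, that is met after `n` steps of the walk
from `δ` to `l`, where `n` depends only on `C`; countably many disjoint sets of levels `δ` are used to
put together the countably many values of `n`.
-/

set_option autoImplicit false

namespace Pool.Agent.Results.MP_93862b_gt.AllRegular

open Cardinal Set Order Topology

universe u

/-- The space `U(A)` of uniform ultrafilters on `A`, with the subspace topology inherited from the
space of all ultrafilters on `A`. -/
abbrev Unif (A : Type u) : Type u := {q : Ultrafilter A // ∀ s ∈ q, #s = #A}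

/-- `F` is an almost disjoint family of subsets of `A`. -/
def AlmostDisjointFamily {A : Type u} (F : Set (Set A)) : Prop :=
  (∀ s ∈ F, #s = #A) ∧ F.Pairwise (fun s t => #(s ∩ t : Set A) < #A)

/-- `p` is a `γ`-point of `U(A)`: there are `γ` pairwise disjoint open subsets of `U(A)`, each of
which has `p` in its boundary. -/
def IsGammaPoint {A : Type u} (γ : Cardinal.{u}) (p : Unif A) : Prop :=
  ∃ 𝒪 : Set (Set (Unif A)), #𝒪 = γ ∧ 𝒪.PairwiseDisjoint id ∧ ∀ O ∈ 𝒪, IsOpen O ∧ p ∈ frontier O

/-- If `#A` is regular and uncountable and there is an almost disjoint family of cardinality `γ` on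
`A`, then every point of `U(A)` is a `γ`-point of `U(A)`. -/
theorem result (A : Type u) (hA : ℵ₀ < #A) (hr : (#A).IsRegular) (γ : Cardinal.{u})
    (hγ : ∃ F : Set (Set A), AlmostDisjointFamily F ∧ #F = γ) (p : Unif A) :
    IsGammaPoint γ p := by
  obtain ⟨F, ⟨hF1, hF2⟩, rfl⟩ := hγ
  exact LibGPR.main_regular hA hr p F hF1 hF2

end Pool.Agent.Results.MP_93862b_gt.AllRegular
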